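import Pool.Agent.Helper91.IP.St.Stubs

/-!
# Project IP, piece E5: the trace on the functions of few labels
-/

namespace Pool.Agent.Helper56.IP

open Finset Equiv Matrix Pool.Agent.Helper91.IP

variable {V : Type} [Fintype V] [DecidableEq V]

namespace E5

section lin

variable {ι : Type} [Fintype ι]

theorem mat_ext [DecidableEq ι] {M N : Matrix ι ι ℝ} (h : ∀ u, M *ᵥ u = N *ᵥ u) : M = N := by
  apply Matrix.toLin'.injective
  apply LinearMap.ext
  intro u
  simpa using h u

/-- a symmetric idempotent has nonnegative trace -/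
theorem trace_nonneg {M : Matrix ι ι ℝ} (hs : M.IsSymm) (hi : M * M = M) : 0 ≤ trace M := by
  rw [← hi]
  unfold Matrix.trace
  refine Finset.sum_nonneg fun i _ => ?_
  rw [Matrix.diag_apply, Matrix.mul_apply]
  refine Finset.sum_nonneg fun j _ => ?_
  have : M j i = M i j := hs.apply i j
  rw [this]
  exact mul_self_nonneg _

theorem symm_mul {M N : Matrix ι ι ℝ} (hM : M.IsSymm) (hN : N.IsSymm) (h : M * N = N * M) :
    (M * N).IsSymm := by
  unfold Matrix.IsSymm at *
  rw [Matrix.transpose_mul, hM, hN, h]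

end lin

theorem Fs_le_Vl {S : Finset V} {j : ℕ} (h : S.card ≤ j) : Fs S ≤ Vl V j :=
  le_iSup (fun S : {S : Finset V // S.card ≤ j} => Fs (S : Finset V)) ⟨S, h⟩

theorem Vl_mono {i j : ℕ} (h : i ≤ j) : Vl V i ≤ Vl V j :=
  iSup_le fun S => Fs_le_Vl (S.2.trans h)

theorem En_nonneg {w : V → V → ℝ} (hw : ∀ x y, 0 ≤ w x y) (f : Perm V → ℝ) : 0 ≤ En w f := by
  unfold En
  refine mul_nonneg (by norm_num) ?_
  refine Finset.sum_nonneg fun x _ => Finset.sum_nonneg fun y _ => mul_nonneg (hw x y) ?_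
  exact Finset.sum_nonneg fun s _ => sq_nonneg _

theorem Am_comm_PF (w : V → V → ℝ) (S : Finset V) : Am w * PF S = PF S * Am w := by
  unfold PF
  rw [Matrix.mul_smul, Matrix.smul_mul, Matrix.mul_sum, Matrix.sum_mul]
  congr 1
  exact Finset.sum_congr rfl fun g _ => Am_comm_Rm w g

/-- the pieces of a nested family of projections -/
theorem exists_flag : ∃ P : ℕ → Matrix (Perm V) (Perm V) ℝ,
    (∀ j, (P j).IsSymm) ∧ (∀ j, P j * P j = P j) ∧ (∀ j u, P j *ᵥ u ∈ Vl V j) ∧
    (∀ j, ∀ u ∈ Vl V j, P j *ᵥ u = u) ∧ (∀ j, trace (P j) = Module.finrank ℝ (Vl V j)) ∧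
    (∀ j, ∀ M : Matrix (Perm V) (Perm V) ℝ, M.IsSymm → (∀ u ∈ Vl V j, M *ᵥ u ∈ Vl V j) →
      M * P j = P j * M) := by
  choose P h1 h2 h3 h4 h5 h6 using fun j : ℕ => exists_proj (Vl V j)
  refine ⟨P, h1, h2, h3, h4, h5, ?_⟩
  intro j M hM hU
  exact h6 j M hU (by rw [hM]; exact hU)

/-- the bound for one level -/
theorem level_term {w : V → V → ℝ} (S : Finset V) (j : ℕ) (hj : j ≤ Fintype.card V)
    (P P' : Matrix (Perm V) (Perm V) ℝ) (hP : P.IsSymm) (hP' : P'.IsSymm) (hPP : P * P = P)
    (hPP' : P' * P' = P') (hPP1 : P * P' = P') (hPP2 : P' * P = P')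
    (hPm : ∀ u, P *ᵥ u ∈ Vl V j) (htr : trace P = Module.finrank ℝ (Vl V j))
    (hFP : PF S * P = P * PF S) (hFP' : PF S * P' = P' * PF S)
    (hAP : Am w * P = P * Am w) (hAP' : Am w * P' = P' * Am w) (c : ℝ)
    (hc : ∀ f ∈ Vl V j, P' *ᵥ f = 0 → c * nsq f ≤ En w f) {T : ℝ} (hT : 0 ≤ T) :
    trace (Kt w T * (PF S * (P - P'))) ≤
      Real.exp (-(T * c)) * ((Fintype.card V).choose j * Fintype.card V ^ j : ℝ) := by
  set F := PF S with hF
  have hFs : F.IsSymm := PF_isSymm S
  have hFF : F * F = F := PF_idem S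
  have hDs : (P - P').IsSymm := by
    unfold Matrix.IsSymm at *
    rw [Matrix.transpose_sub, hP, hP']
  have hDD : (P - P') * (P - P') = P - P' := by
    rw [sub_mul, mul_sub, mul_sub, hPP, hPP1, hPP2, hPP', sub_self, sub_zero]
  have hFD : F * (P - P') = (P - P') * F := by
    rw [mul_sub, sub_mul, hFP, hFP']
  have hAD : Am w * (P - P') = (P - P') * Am w := by
    rw [mul_sub, sub_mul, hAP, hAP']
  have hQs : (F * (P - P')).IsSymm := symm_mul hFs hDs hFD
  have hQQ : F * (P - P') * (F * (P - P')) = F * (P - P') := by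
    calc F * (P - P') * (F * (P - P')) = F * ((P - P') * F) * (P - P') := by
          simp only [mul_assoc]
      _ = F * (F * (P - P')) * (P - P') := by rw [hFD]
      _ = (F * F) * ((P - P') * (P - P')) := by simp only [mul_assoc]
      _ = F * (P - P') := by rw [hFF, hDD]
  have hAQ : Am w * (F * (P - P')) = F * (P - P') * Am w := by
    rw [← mul_assoc, Am_comm_PF, mul_assoc, hAD, ← mul_assoc]
  have hPQ : P * (F * (P - P')) = F * (P - P') := by
    rw [← mul_assoc, ← hFP, mul_assoc, mul_sub, hPP, hPP1]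
  have hP'Q : P' * (F * (P - P')) = 0 := by
    rw [← mul_assoc, ← hFP', mul_assoc, mul_sub, hPP2, hPP', sub_self, mul_zero]
  have key := trace_exp_le (Am w) (F * (P - P')) (Am_isSymm w) hQs hQQ hAQ c (by
    intro u hu
    have h1 : u ∈ Vl V j := by
      have : P *ᵥ u = u := by
        rw [← hu, Matrix.mulVec_mulVec, hPQ]
      rw [← this]
      exact hPm u
    have h2 : P' *ᵥ u = 0 := by
      rw [← hu, Matrix.mulVec_mulVec, hP'Q, Matrix.zero_mulVec]
    have h3 := hc u h1 h2
    rw [Am_quad]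
    have h4 : u ⬝ᵥ u = nsq u := by
      unfold nsq dotProduct
      exact Finset.sum_congr rfl fun s _ => (sq (u s)).symm
    rw [h4]
    exact h3) 0 hT
  rw [zero_add, zero_smul, neg_zero, NormedSpace.exp_zero, one_mul] at key
  have htrQ : trace (F * (P - P')) ≤ trace P := by
    have hs : (P - F * (P - P')).IsSymm := by
      unfold Matrix.IsSymm at *
      rw [Matrix.transpose_sub, hP, hQs]
    have hQP : F * (P - P') * P = F * (P - P') := by
      rw [mul_assoc, sub_mul, hPP, hPP2]
    have hi : (P - F * (P - P')) * (P - F * (P - P')) = P - F * (P - P') := by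
      set Q := F * (P - P') with hQ
      rw [sub_mul, mul_sub, mul_sub, hPP, hPQ, hQP, hQQ, sub_self, sub_zero]
    have := trace_nonneg hs hi
    rw [Matrix.trace_sub] at this
    linarith
  have hfin : (Module.finrank ℝ (Vl V j) : ℝ) ≤
      ((Fintype.card V).choose j * Fintype.card V ^ j : ℝ) := by
    exact_mod_cast finrank_Vl j hj
  calc trace (Kt w T * (F * (P - P'))) ≤ Real.exp (-(T * c)) * trace (F * (P - P')) := key
    _ ≤ Real.exp (-(T * c)) * ((Fintype.card V).choose j * Fintype.card V ^ j : ℝ) := by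
        refine mul_le_mul_of_nonneg_left ?_ (Real.exp_pos _).le
        rw [htr] at htrQ
        exact htrQ.trans hfin

end E5

open E5 in
/-- IP-E5 -/
theorem trace_PF {w : V → V → ℝ} (hV : 1 ≤ Fintype.card V) (S : Finset V) (c : ℝ)
    (hc : ∀ j : ℕ, 1 ≤ j → j ≤ S.card → ∀ f ∈ Vl V j, Orth f (Vl V (j - 1)) →
      c * j * nsq f ≤ En w f) (hw : ∀ x y, 0 ≤ w x y) {T : ℝ} (hT : 0 ≤ T) :
    trace (Kt w T * PF S) ≤ (1 + Fintype.card V * Real.exp (-(c * T))) ^ Fintype.card V := by
  obtain ⟨P, h1, h2, h3, h4, h5, h6⟩ := exists_flag (V := V)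
  have hS : S.card ≤ Fintype.card V := Finset.card_le_univ S
  have hF : ∀ j, PF S * P j = P j * PF S := fun j =>
    h6 j _ (PF_isSymm S) fun u hu => PF_Vl S j hu
  have hA : ∀ j, Am w * P j = P j * Am w := fun j =>
    h6 j _ (Am_isSymm w) fun u hu => Am_Vl w j hu
  have hup : ∀ j, P (j + 1) * P j = P j := fun j => by
    apply mat_ext
    intro u
    rw [← Matrix.mulVec_mulVec]
    exact h4 _ _ (Vl_mono (Nat.le_succ j) (h3 j u))
  have hdn : ∀ j, P j * P (j + 1) = P j := fun j => by
    have := congrArg Matrix.transpose (hup j)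
    rw [Matrix.transpose_mul] at this
    rw [(h1 j), (h1 (j + 1))] at this
    exact this
  have hPS : PF S * P S.card = PF S := by
    rw [hF]
    apply mat_ext
    intro u
    rw [← Matrix.mulVec_mulVec]
    exact h4 _ _ (Fs_le_Vl le_rfl (PF_mem S u))
  -- telescoping
  have htel : ∀ k : ℕ, P k = P 0 + ∑ j ∈ Finset.range k, (P (j + 1) - P j) := fun k => by
    rw [Finset.sum_range_sub]
    abel
  have hdec : trace (Kt w T * PF S) = trace (Kt w T * (PF S * (P 0 - 0))) +
      ∑ j ∈ Finset.range S.card, trace (Kt w T * (PF S * (P (j + 1) - P j))) := by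
    conv_lhs => rw [← hPS, htel S.card]
    rw [sub_zero, mul_add, mul_add, Matrix.trace_add, Matrix.mul_sum, Matrix.mul_sum,
      Matrix.trace_sum]
  have hE : Real.exp (-(c * T)) ≥ 0 := (Real.exp_pos _).le
  have hterm0 : trace (Kt w T * (PF S * (P 0 - 0))) ≤
      ((Fintype.card V).choose 0 : ℝ) * (Fintype.card V * Real.exp (-(c * T))) ^ 0 := by
    have := level_term S 0 (Nat.zero_le _) (P 0) 0 (h1 0) (Matrix.transpose_zero)
      (h2 0) (by simp) (by simp) (by simp) (h3 0) (h5 0) (hF 0) (by simp) (hA 0) (by simp) 0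
      (by
        intro f _ _
        rw [zero_mul]
        exact En_nonneg hw f) hT
    simpa using this
  have hterm : ∀ j ∈ Finset.range S.card, trace (Kt w T * (PF S * (P (j + 1) - P j))) ≤
      ((Fintype.card V).choose (j + 1) : ℝ) *
        (Fintype.card V * Real.exp (-(c * T))) ^ (j + 1) := by
    intro j hj
    have hj' : j + 1 ≤ S.card := Finset.mem_range.mp hj
    have := level_term S (j + 1) (hj'.trans hS) (P (j + 1)) (P j) (h1 _) (h1 _) (h2 _) (h2 _)
      (hup j) (hdn j) (h3 _) (h5 _) (hF _) (hF _) (hA _) (hA _) (c * ((j + 1 : ℕ) : ℝ))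
      (by
        intro f hf hf0
        refine hc (j + 1) (Nat.succ_pos j) hj' f hf ?_
        intro g hg
        rw [Nat.add_sub_cancel] at hg
        have h7 : P j *ᵥ g = g := h4 j g hg
        have h8 : f ⬝ᵥ g = 0 := by
          rw [← h7, Matrix.dotProduct_mulVec, ← Matrix.mulVec_transpose, h1 j, hf0,
            zero_dotProduct]
        exact h8) hT
    refine this.trans (le_of_eq ?_)
    have h9 : Real.exp (-(T * (c * ((j + 1 : ℕ) : ℝ)))) = Real.exp (-(c * T)) ^ (j + 1) := by
      rw [← Real.exp_nat_mul]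
      congr 1
      ring
    rw [h9, mul_pow]
    ring
  rw [hdec]
  calc trace (Kt w T * (PF S * (P 0 - 0))) +
        ∑ j ∈ Finset.range S.card, trace (Kt w T * (PF S * (P (j + 1) - P j)))
      ≤ ((Fintype.card V).choose 0 : ℝ) * (Fintype.card V * Real.exp (-(c * T))) ^ 0 +
        ∑ j ∈ Finset.range S.card, ((Fintype.card V).choose (j + 1) : ℝ) *
          (Fintype.card V * Real.exp (-(c * T))) ^ (j + 1) :=
        add_le_add hterm0 (Finset.sum_le_sum hterm)
    _ = ∑ j ∈ Finset.range (S.card + 1), ((Fintype.card V).choose j : ℝ) *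
          (Fintype.card V * Real.exp (-(c * T))) ^ j := by
        rw [Finset.sum_range_succ' _ S.card, add_comm]
    _ ≤ ∑ j ∈ Finset.range (Fintype.card V + 1), ((Fintype.card V).choose j : ℝ) *
          (Fintype.card V * Real.exp (-(c * T))) ^ j := by
        refine Finset.sum_le_sum_of_subset_of_nonneg ?_ ?_
        · exact Finset.range_subset_range.mpr (by omega)
        · intro j _ _
          positivity
    _ = (1 + Fintype.card V * Real.exp (-(c * T))) ^ Fintype.card V := by
        rw [add_comm (1 : ℝ), add_pow]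
        refine Finset.sum_congr rfl fun j _ => ?_
        rw [one_pow]
        ring

end Pool.Agent.Helper56.IP
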